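import Pool.Agent.H38Pav.Main

/-!
MP_039b14_co. Give every isomorphism class of matroids on an `n`-element ground set the weight
`l ^ (number of nonbases)` (the question is the case `l = 1`).  For every fixed `0 < l ≤ 1/15` the
classes with an `M(G)`-minor carry a vanishing proportion of the total weight.
-/

namespace Pool.Agent.Results.MP_039b14_co.BiasedPaving

open Filter Topology H38Pav

theorem result (l : ℝ) (hl : 0 < l) (hl1 : l ≤ 1 / 15) :
    Tendsto (fun n : ℕ => wsum n l Cls.HasMG / wsum n l (fun _ => True)) atTop (𝓝 0) :=
  tendsto_wsum_of l hl hl1 (fun _ => Cls.HasMG) (fun _ => nonPaving_of_hasMG)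

end Pool.Agent.Results.MP_039b14_co.BiasedPaving
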