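import Pool.Agent.H83Pav.Pre
import Pool.Agent.H83Pav.RegLFin
import Pool.Agent.H83Pav.ESup

/-!
MP_039b14_co. Let `g n / sqrt (log n)` tend to infinity. Asymptotically almost no matroid with an
`M(G)`-minor and with all circuits and cocircuits of size at least `g n` satisfies neither `Crit M`
nor `Crit M✶`, where `Crit M` says that `M` has a circuit with exactly `r(M) - 1` elements which is
disjoint from a cocircuit with at least `r(M✶) - 1` elements. Hence Q1 is equivalent to: the
proportion of the classes of matroids which satisfy `Crit` or have a circuit with fewer than `g n`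
elements tends to zero.
-/

namespace Pool.Agent.Results.MP_039b14_co.OneBelowRank

open Filter Topology H38Pav H83Pav

theorem result (g : ℕ → ℕ)
    (hg : ∀ A : ℝ, ∀ᶠ n : ℕ in atTop, A * Real.log n ≤ (g n : ℝ) ^ 2)
    (hg4 : ∀ᶠ n : ℕ in atTop, 4 * g n ≤ n) :
    Tendsto (fun n : ℕ => (Nat.card {c : Cls n // CleanMG (g n) c} : ℝ) / Nat.card (Cls n))
      atTop (𝓝 0) ∧
    (Tendsto (fun n : ℕ => (Nat.card {c : Cls n // c.HasMG} : ℝ) / Nat.card (Cls n))
      atTop (𝓝 0) ↔
    Tendsto (fun n : ℕ => (Nat.card {c : Cls n // Shallow (g n) c} : ℝ) / Nat.card (Cls n))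
      atTop (𝓝 0)) :=
  final_of (H83E.eventually_count 1001) H83L.eventually_LBound g hg hg4

end Pool.Agent.Results.MP_039b14_co.OneBelowRank
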