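import Pool.Agent.RKP.LV

/-!
# MP_039b14_co, Q1 in the ranks four to seven

Almost no matroid of rank four, five, six or seven has an `M(G)`-minor.

For every rank `r` with `4 ≤ r ≤ 7` and every `A`, `n ^ A` times the proportion of the isomorphism
classes with an `M(G)`-minor among all isomorphism classes of matroids of rank `r` on `n` elements
tends to zero.
-/

set_option autoImplicit false

namespace Pool.Agent.Results.MP_039b14_co.RankFourToSeven

open Filter Topology H38Pav Pool.Agent.RKP

/-- the number of isomorphism classes of matroids of rank `r` on `n` elements -/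
noncomputable def classes (r n : ℕ) : ℕ := Nat.card {c : Cls n // Rk r c}

/-- the number of those classes of rank `r` whose members have an `M(G)`-minor -/
noncomputable def classesMG (r n : ℕ) : ℕ := Nat.card {c : Cls n // Rk r c ∧ c.HasMG}

theorem tendsto_aux {a b : ℕ → ℕ}
    (h : ∀ A : ℕ, ∃ N : ℕ, ∀ n : ℕ, N ≤ n → n ^ A * a n ≤ b n) (A : ℕ) :
    Tendsto (fun n : ℕ => (n : ℝ) ^ A * ((a n : ℝ) / (b n : ℝ))) atTop (𝓝 0) := by
  obtain ⟨N, hN⟩ := h (A + 1)
  refine squeeze_zero' (Eventually.of_forall fun n => by positivity) ?_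
    (tendsto_one_div_atTop_nhds_zero_nat (𝕜 := ℝ))
  filter_upwards [eventually_ge_atTop N, eventually_ge_atTop 1] with n hn h1
  have hn0 : (0 : ℝ) < n := by exact_mod_cast h1
  have h2 : ((n : ℝ) ^ (A + 1)) * (a n : ℝ) ≤ (b n : ℝ) := by exact_mod_cast hN n hn
  rcases Nat.eq_zero_or_pos (b n) with hb | hb
  · rw [hb]; simp
  · have hb0 : (0 : ℝ) < b n := by exact_mod_cast hb
    rw [le_div_iff₀ hn0, mul_comm ((n : ℝ) ^ A), mul_assoc, ← pow_succ, div_mul_eq_mul_div,
      div_le_one hb0, mul_comm]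
    exact h2

theorem result (r A : ℕ) (h4 : 4 ≤ r) (h7 : r ≤ 7) :
    (∀ᶠ n in atTop, 0 < classes r n) ∧
      Tendsto (fun n : ℕ => (n : ℝ) ^ A * ((classesMG r n : ℝ) / (classes r n : ℝ)))
        atTop (𝓝 0) := by
  refine ⟨?_, ?_⟩
  · obtain ⟨N, hN⟩ := final_cls r 0 h4 h7
    filter_upwards [eventually_ge_atTop N] with n hn
    exact (hN n hn).1
  · refine tendsto_aux (fun A => ?_) A
    obtain ⟨N, hN⟩ := final_cls r A h4 h7
    exact ⟨N, fun n hn => (hN n hn).2⟩

end Pool.Agent.Results.MP_039b14_co.RankFourToSeven
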