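import Pool.Agent.FCR.UFin

/-!
# MP_039b14_co, Q1 in small corank

For all `r ≥ 3` and all `n ≥ (r + 1) ^ (60 (r + 1))` the isomorphism classes of matroids of rank
`n - r` on `n` elements without an `M(G)`-minor are at most the `n ^ n`-th part of all isomorphism
classes of matroids of rank `n - r` on `n` elements. So the statement of Q1 fails in every fixed
corank `r ≥ 3`, and uniformly in all coranks up to a constant times `log n / log log n`: there
almost all matroids have an `M(G)`-minor.
-/

set_option autoImplicit false

namespace Pool.Agent.Results.MP_039b14_co.SmallCorank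

open H38Pav Pool.Agent.FCR

/-- the number of isomorphism classes of matroids of rank `n - r` on `n` elements -/
noncomputable def classes (r n : ℕ) : ℕ := Nat.card {c : Cls n // RC r c}

/-- the number of those classes of rank `n - r` whose members have no `M(G)`-minor -/
noncomputable def classesNoMG (r n : ℕ) : ℕ := Nat.card {c : Cls n // RC r c ∧ ¬ c.HasMG}

theorem result (r n : ℕ) (hr : 3 ≤ r) (hn : (r + 1) ^ (60 * (r + 1)) ≤ n) :
    0 < classes r n ∧ n ^ n * classesNoMG r n ≤ classes r n :=
  ufinal r n hr hn

end Pool.Agent.Results.MP_039b14_co.SmallCorank
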